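import Pool.Agent.Helper61_FPP.PathFam
import Pool.Agent.Helper33_FPP.Transfer
import Pool.Agent.Helper33_FPP.Conc

/-!
# Means of restricted passage times
-/

set_option autoImplicit false

namespace Pool.Agent.Helper33_FPP
namespace UpperMean

open Finset MeasureTheory ProbabilityTheory Filter Topology

/-- i.i.d. weights in `[0, b]` -/
structure Iid {Ω : Type} [MeasurableSpace Ω] (P : Measure Ω) (F : Measure ℝ)
    (X : Z2.edgeSet → Ω → ℝ) (b : ℝ) : Prop where
  meas : ∀ e, Measurable (X e)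
  indep : iIndepFun X P
  law : ∀ e, P.map (X e) = F
  nonneg : ∀ e ω, 0 ≤ X e ω
  le : ∀ e ω, X e ω ≤ b

section

variable {Ω : Type} [MeasurableSpace Ω] {P : Measure Ω} [IsProbabilityMeasure P]
  {F : Measure ℝ} [IsProbabilityMeasure F] {X : Z2.edgeSet → Ω → ℝ} {b : ℝ}

omit [IsProbabilityMeasure P] [IsProbabilityMeasure F] in
lemma Iid.shift (h : Iid P F X b) (z : ℤ × ℤ) : Iid P F (fun e => X (shE z e)) b where
  meas e := h.meas _
  indep := h.indep.precomp (shE_injective z)
  law e := h.law _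
  nonneg e ω := h.nonneg _ ω
  le e ω := h.le _ ω

omit [IsProbabilityMeasure F] in
lemma Iid.map_eq (h : Iid P F X b) :
    P.map (fun ω e => X e ω) = Measure.infinitePi (fun _ : Z2.edgeSet => F) := by
  have h1 := h.indep.map_fun_eq_infinitePi_map h.meas
  rw [h1]
  congr 1
  funext e
  exact h.law e

omit [IsProbabilityMeasure F] in
/-- translation invariance -/
lemma Iid.integral_shift (h : Iid P F X b) (z : ℤ × ℤ) {H : (Z2.edgeSet → ℝ) → ℝ}
    (hH : Measurable H) :
    ∫ ω, H (fun e => X (shE z e) ω) ∂P = ∫ ω, H (fun e => X e ω) ∂P := by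
  have m1 : Measurable fun ω => (fun e => X e ω) := measurable_pi_lambda _ h.meas
  have m2 : Measurable fun ω => (fun e => X (shE z e) ω) :=
    measurable_pi_lambda _ fun e => h.meas _
  rw [← integral_map (φ := fun ω => (fun e => X (shE z e) ω)) m2.aemeasurable
    hH.aestronglyMeasurable, ← integral_map (φ := fun ω => (fun e => X e ω)) m1.aemeasurable
    hH.aestronglyMeasurable, (h.shift z).map_eq, h.map_eq]

lemma measurable_tau {D : Set (ℤ × ℤ)} {k : ℕ} (h : (fam D k).Nonempty) :
    Measurable (tau D k h) := by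
  have := measurable_minW (w := fun (e : Z2.edgeSet) (w : Z2.edgeSet → ℝ) => w e)
    (fun e => measurable_pi_apply e) (fam D k) h
  exact this

/-- the mean of `tau` -/
noncomputable def mean (P : Measure Ω) (X : Z2.edgeSet → Ω → ℝ) (D : Set (ℤ × ℤ)) (k : ℕ)
    (h : (fam D k).Nonempty) : ℝ := ∫ ω, tau D k h (fun e => X e ω) ∂P

omit [IsProbabilityMeasure P] [IsProbabilityMeasure F] in
lemma Iid.measurable_tau (hX : Iid P F X b) {D : Set (ℤ × ℤ)} {k : ℕ} (h : (fam D k).Nonempty) :
    Measurable fun ω => tau D k h (fun e => X e ω) :=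
  (UpperMean.measurable_tau h).comp (measurable_pi_lambda _ hX.meas)

omit [IsProbabilityMeasure P] [IsProbabilityMeasure F] in
lemma Iid.tau_nonneg (hX : Iid P F X b) {D : Set (ℤ × ℤ)} {k : ℕ} (h : (fam D k).Nonempty)
    (ω : Ω) : 0 ≤ tau D k h (fun e => X e ω) :=
  UpperMean.tau_nonneg h fun e => hX.nonneg e ω

omit [IsProbabilityMeasure P] [IsProbabilityMeasure F] in
lemma Iid.tau_le (hX : Iid P F X b) (hb : 0 ≤ b) {D : Set (ℤ × ℤ)} {k : ℕ}
    (h : (fam D k).Nonempty) (ω : Ω) : tau D k h (fun e => X e ω) ≤ k * b :=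
  minW_le (fam D k) h hb (fun e => hX.le e ω) fam_card

omit [IsProbabilityMeasure F] in
lemma Iid.integrable_tau (hX : Iid P F X b) (hb : 0 ≤ b) {D : Set (ℤ × ℤ)} {k : ℕ}
    (h : (fam D k).Nonempty) : Integrable (fun ω => tau D k h (fun e => X e ω)) P := by
  refine Integrable.of_bound (hX.measurable_tau h).aestronglyMeasurable (k * b)
    (Eventually.of_forall fun ω => ?_)
  rw [Real.norm_eq_abs, abs_of_nonneg (hX.tau_nonneg h ω)]
  exact hX.tau_le hb h ω

/-- concentration -/
lemma Iid.conc (hX : Iid P F X b) (hb : 0 < b) {D : Set (ℤ × ℤ)} {k : ℕ}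
    (h : (fam D k).Nonempty) {t : ℝ} (ht : 0 ≤ t) :
    P.real {ω | t ≤ |tau D k h (fun e => X e ω) - mean P X D k h|} ≤
      4 * Real.exp (-(t / (2 * b * Real.sqrt (k + 1)))) := by
  classical
  exact conc_measure_of (fun J => by
      intro V _ p hp val b' hb' hval 𝒮 h𝒮 k' hk' t' ht'
      exact concentration hp hb' hval 𝒮 h𝒮 hk' ht') hX.meas hX.indep hX.law hb
    (fun e ω => ⟨hX.nonneg e ω, hX.le e ω⟩) (fam D k) h fam_card ht

omit [IsProbabilityMeasure F] in
lemma Iid.mean_shift (hX : Iid P F X b) (z : ℤ × ℤ) {D : Set (ℤ × ℤ)} {k : ℕ}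
    (h : (fam D k).Nonempty) : mean P (fun e => X (shE z e)) D k h = mean P X D k h :=
  hX.integral_shift z (UpperMean.measurable_tau h)

/-- comparison of integrals outside a bad event -/
lemma integral_le_add_bad {f g : Ω → ℝ} (hf0 : ∀ ω, 0 ≤ f ω) (hg : Integrable g P) {M : ℝ}
    (hM : 0 ≤ M) {Bad : Set Ω} (h1 : ∀ ω, ω ∉ Bad → f ω ≤ g ω) (h2 : ∀ ω, f ω ≤ g ω + M) :
    ∫ ω, f ω ∂P ≤ ∫ ω, g ω ∂P + M * P.real Bad := by
  set B := toMeasurable P Bad with hB
  have hBm : MeasurableSet B := measurableSet_toMeasurable P Bad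
  have hsub : Bad ⊆ B := subset_toMeasurable P Bad
  have hPB : P.real B = P.real Bad := by
    rw [Measure.real, hB, measure_toMeasurable, Measure.real]
  have hi : Integrable (B.indicator fun _ => M) P := (integrable_const M).indicator hBm
  have e1 : ∫ ω, (g ω + B.indicator (fun _ => M) ω) ∂P = ∫ ω, g ω ∂P + M * P.real Bad := by
    rw [integral_add hg hi, integral_indicator hBm, integral_const, smul_eq_mul, ← hPB]
    congr 1
    rw [mul_comm]
    congr 1
    rw [measureReal_restrict_apply_univ]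
  rw [← e1]
  refine integral_mono_of_nonneg (Eventually.of_forall hf0) (hg.add hi)
    (Eventually.of_forall fun ω => ?_)
  show f ω ≤ g ω + B.indicator (fun _ => M) ω
  by_cases hω : ω ∈ B
  · rw [Set.indicator_of_mem hω]
    exact h2 ω
  · rw [Set.indicator_of_notMem hω, add_zero]
    exact h1 ω fun h => hω (hsub h)

omit [IsProbabilityMeasure F] in
lemma Iid.mean_nonneg (hX : Iid P F X b) {D : Set (ℤ × ℤ)} {k : ℕ} (h : (fam D k).Nonempty) :
    0 ≤ mean P X D k h := integral_nonneg fun ω => hX.tau_nonneg h ω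

omit [IsProbabilityMeasure F] in
lemma Iid.mean_line_le (hX : Iid P F X b) (hb : 0 ≤ b) {n k : ℕ} (hnk : 2 * n ≤ k)
    (h : (fam (line n) k).Nonempty) : mean P X (line n) k h ≤ 2 * b * n := by
  have h1 : ∀ ω, tau (line n) k h (fun e => X e ω) ≤ 2 * b * n := fun ω =>
    tau_line_le hnk h hb fun e => ⟨hX.nonneg e ω, hX.le e ω⟩
  have h2 := integral_mono (hX.integrable_tau hb h) (integrable_const (2 * b * n)) h1
  rwa [integral_const, probReal_univ, one_smul] at h2

/-- number of points at level `2 n` in a box -/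
lemma card_level_le (k n : ℕ) : ((box k).filter (fun z => A z = 2 * n)).card ≤ 2 * k + 1 := by
  have h1 : ((box k).filter (fun z => A z = 2 * n)).card ≤ (Finset.Icc (-(k : ℤ)) k).card := by
    refine Finset.card_le_card_of_injOn (fun z => z.1) ?_ ?_
    · intro z hz
      rw [Finset.mem_coe, Finset.mem_filter, mem_box] at hz
      rw [Finset.mem_coe, Finset.mem_Icc]
      exact hz.1.1
    · intro z hz z' hz' h
      rw [Finset.mem_coe, Finset.mem_filter] at hz hz'
      have e1 := hz.2
      have e2 := hz'.2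
      unfold A at e1 e2
      simp only at h
      exact Prod.ext h (by omega)
  refine h1.trans ?_
  rw [Int.card_Icc]
  omega

/-- union bound over a finset with a uniform bound -/
lemma measureReal_exists_le {ι : Type*} (s : Finset ι) (E : ι → Set Ω) {q : ℝ}
    (h : ∀ i ∈ s, P.real (E i) ≤ q) : P.real {ω | ∃ i ∈ s, ω ∈ E i} ≤ s.card * q := by
  have h1 : {ω | ∃ i ∈ s, ω ∈ E i} = ⋃ i ∈ s, E i := by
    ext ω
    simp
  rw [h1]
  refine (measureReal_biUnion_finset_le s E).trans ?_
  refine (Finset.sum_le_sum h).trans ?_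
  rw [Finset.sum_const, nsmul_eq_mul]

/-- superadditivity of the restricted means -/
lemma Iid.mean_super (hX : Iid P F X b) (hb : 0 < b) {n k : ℕ} (hnk : 2 * (2 * n) ≤ k)
    (h1 : (fam (line n) k).Nonempty) (h2 : (fam (line (2 * n)) k).Nonempty) {t : ℝ} (ht : 0 ≤ t) :
    2 * mean P X (line n) k h1 ≤ mean P X (line (2 * n)) k h2 + t +
      2 * b * n * ((2 * k + 1) * (4 * Real.exp (-(t / (2 * b * Real.sqrt (k + 1)))))) := by
  set a := mean P X (line n) k h1 with ha
  set s := (box k).filter (fun z => A z = 2 * n) with hs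
  set E : ℤ × ℤ → Set Ω := fun z =>
    {ω | t ≤ |tau (line n) k h1 (fun e => X (shE z e) ω) - a|} with hE
  have hEz : ∀ z ∈ s, P.real (E z) ≤ 4 * Real.exp (-(t / (2 * b * Real.sqrt (k + 1)))) := by
    intro z _
    have h3 := (hX.shift z).conc hb h1 ht
    rw [hX.mean_shift z h1] at h3
    exact h3
  have hBad := measureReal_exists_le (P := P) s E hEz
  have hcard : (s.card : ℝ) ≤ 2 * k + 1 := by exact_mod_cast card_level_le k n
  have hBad' : P.real {ω | ∃ z ∈ s, ω ∈ E z} ≤
      (2 * k + 1) * (4 * Real.exp (-(t / (2 * b * Real.sqrt (k + 1))))) :=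
    hBad.trans (mul_le_mul_of_nonneg_right hcard (by positivity))
  have ha2 : a ≤ 2 * b * n := hX.mean_line_le hb.le (by omega) h1
  have hsup : ∀ ω, ∃ z ∈ s, tau (line n) k h1 (fun e => X e ω) +
      tau (line n) k h1 (fun e => X (shE z e) ω) ≤ tau (line (2 * n)) k h2 (fun e => X e ω) := by
    intro ω
    obtain ⟨z, hz, hz2, hz3⟩ := tau_super h1 h2 (w := fun e => X e ω) fun e => hX.nonneg e ω
    exact ⟨z, Finset.mem_filter.2 ⟨hz, hz2⟩, hz3⟩
  have key := integral_le_add_bad (P := P) (f := fun ω => tau (line n) k h1 (fun e => X e ω))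
    (g := fun ω => tau (line (2 * n)) k h2 (fun e => X e ω) - (a - t))
    (fun ω => hX.tau_nonneg h1 ω) ((hX.integrable_tau hb.le h2).sub (integrable_const _))
    (M := 2 * b * n) (by positivity) (Bad := {ω | ∃ z ∈ s, ω ∈ E z})
    (by
      intro ω hω
      obtain ⟨z, hz, hz3⟩ := hsup ω
      have h4 : ω ∉ E z := fun h => hω ⟨z, hz, h⟩
      have h5 : |tau (line n) k h1 (fun e => X (shE z e) ω) - a| < t := by
        by_contra hcon
        exact h4 (not_lt.1 hcon)
      have h6 := (abs_lt.1 h5).1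
      linarith)
    (by
      intro ω
      obtain ⟨z, hz, hz3⟩ := hsup ω
      have h4 := (hX.shift z).tau_nonneg h1 ω
      linarith)
  rw [integral_sub (hX.integrable_tau hb.le h2) (integrable_const _), integral_const,
    probReal_univ, one_smul] at key
  have key2 : a ≤ mean P X (line (2 * n)) k h2 - (a - t) + 2 * b * n *
      P.real {ω | ∃ z ∈ s, ω ∈ E z} := key
  have h7 : 2 * b * n * P.real {ω | ∃ z ∈ s, ω ∈ E z} ≤
      2 * b * n * ((2 * k + 1) * (4 * Real.exp (-(t / (2 * b * Real.sqrt (k + 1)))))) :=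
    mul_le_mul_of_nonneg_left hBad' (by positivity)
  linarith

omit [IsProbabilityMeasure F] in
/-- removing the length restriction -/
lemma Iid.mean_peierls (hX : Iid P F X b) (hb : 0 ≤ b) {n k R : ℕ} {θ h0 : ℝ} (hh0 : 0 ≤ h0)
    (hθ : 0 ≤ θ) (hkR : k ≤ R) (hnk : 2 * n ≤ k) (hbig : 2 * b * n < h0 * (θ * k))
    (h1 : (fam (line n) k).Nonempty) (h2 : (fam (line n) R).Nonempty) :
    mean P X (line n) k h1 ≤ mean P X (line n) R h2 + 2 * b * n *
      P.real {ω | ¬ PGood R k θ h0 (ex (fun e => X e ω))} := by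
  refine integral_le_add_bad (fun ω => hX.tau_nonneg h1 ω) (hX.integrable_tau hb h2)
    (by positivity) ?_ ?_
  · intro ω hω
    have hP : PGood R k θ h0 (ex (fun e => X e ω)) := by
      by_contra hcon
      exact hω hcon
    exact tau_peierls (fun e => ⟨hX.nonneg e ω, hX.le e ω⟩) hh0 hθ hb hkR hnk hbig hP h1 h2
  · intro ω
    have h3 := tau_line_le hnk h1 hb (w := fun e => X e ω) fun e => ⟨hX.nonneg e ω, hX.le e ω⟩
    have h4 := hX.tau_nonneg h2 ω
    linarith

omit [IsProbabilityMeasure F] in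
/-- comparison with the unrestricted passage time -/
lemma Iid.mean_le_of_passageTime (hX : Iid P F X b) (hb : 0 ≤ b) {n k : ℕ} {θ h0 s : ℝ}
    (hh0 : 0 ≤ h0) (hs : 0 ≤ s) (hnk : 2 * n ≤ k) (hbig : s ≤ h0 * (θ * k))
    (h1 : (fam (line n) k).Nonempty) :
    mean P X (line n) k h1 ≤ s + 2 * b * n *
      (P.real {ω | s ≤ passageTime (ext X ω) 0 (pt n 0)} +
        P.real {ω | ¬ PGood k k θ h0 (ex (fun e => X e ω))}) := by
  have key := integral_le_add_bad (P := P) (f := fun ω => tau (line n) k h1 (fun e => X e ω))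
    (g := fun _ => s) (fun ω => hX.tau_nonneg h1 ω) (integrable_const _) (M := 2 * b * n)
    (by positivity) (Bad := {ω | s ≤ passageTime (ext X ω) 0 (pt n 0)} ∪
      {ω | ¬ PGood k k θ h0 (ex (fun e => X e ω))})
    (by
      intro ω hω
      rw [Set.mem_union, not_or] at hω
      have h2 : passageTime (ex (fun e => X e ω)) 0 (pt n 0) < s := by
        by_contra hcon
        exact hω.1 (not_lt.1 hcon)
      have hP : PGood k k θ h0 (ex (fun e => X e ω)) := by
        by_contra hcon
        exact hω.2 hcon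
      exact tau_le_of_passageTime (fun e => hX.nonneg e ω) hh0 hbig hP h1 h2)
    (by
      intro ω
      have h3 := tau_line_le hnk h1 hb (w := fun e => X e ω) fun e =>
        ⟨hX.nonneg e ω, hX.le e ω⟩
      linarith)
  rw [integral_const, probReal_univ, one_smul] at key
  refine key.trans ?_
  have h5 := measureReal_union_le (μ := P) {ω | s ≤ passageTime (ext X ω) 0 (pt n 0)}
    {ω | ¬ PGood k k θ h0 (ex (fun e => X e ω))}
  have h6 : (0 : ℝ) ≤ 2 * b * n := by positivity
  have h7 := mul_le_mul_of_nonneg_left h5 h6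
  linarith

end

end UpperMean
end Pool.Agent.Helper33_FPP
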