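import Pool.Agent.Helper33_FPP.Geo

/-!
# Finite families of paths from the origin with bounded length
-/

set_option autoImplicit false

namespace Pool.Agent.Helper33_FPP
namespace UpperMean

/-- translation as a graph homomorphism -/
def sh (z : ℤ × ℤ) : Z2 →g Z2 where
  toFun v := v + z
  map_rel' := by
    intro a b h
    rw [Z2_adj_iff] at h ⊢
    simpa using h

@[simp] lemma sh_apply (z v : ℤ × ℤ) : sh z v = v + z := rfl

/-- translation of a lattice edge -/
def shE (z : ℤ × ℤ) (e : Z2.edgeSet) : Z2.edgeSet := ⟨e.1.map (sh z), (sh z).map_mem_edgeSet e.2⟩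

lemma shE_injective (z : ℤ × ℤ) : Function.Injective (shE z) := by
  intro e e' h
  have h1 : e.1.map (sh z) = e'.1.map (sh z) := congrArg Subtype.val h
  have h2 : Function.Injective (sh z) := fun a b hab => add_right_cancel (b := z) hab
  exact Subtype.ext (Sym2.map.injective h2 h1)

/-- extension by zero of weights on the lattice edges -/
noncomputable def ex (w : Z2.edgeSet → ℝ) (e : Sym2 (ℤ × ℤ)) : ℝ := by
  classical
  exact if h : e ∈ Z2.edgeSet then w ⟨e, h⟩ else 0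

lemma ext_eq {Ω : Type*} (W : Z2.edgeSet → Ω → ℝ) (ω : Ω) : ext W ω = ex (fun e => W e ω) := rfl

lemma ex_of_mem (w : Z2.edgeSet → ℝ) {e : Sym2 (ℤ × ℤ)} (h : e ∈ Z2.edgeSet) :
    ex w e = w ⟨e, h⟩ := by
  unfold ex
  rw [dif_pos h]

lemma ex_coe (w : Z2.edgeSet → ℝ) (e : Z2.edgeSet) : ex w e.1 = w e := ex_of_mem w e.2

lemma ex_nonneg {w : Z2.edgeSet → ℝ} (hw : ∀ e, 0 ≤ w e) (e : Sym2 (ℤ × ℤ)) : 0 ≤ ex w e := by
  unfold ex
  split_ifs
  · exact hw _
  · exact le_rfl

lemma ex_le {w : Z2.edgeSet → ℝ} {b : ℝ} (hb : 0 ≤ b) (hw : ∀ e, w e ≤ b) (e : Sym2 (ℤ × ℤ)) :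
    ex w e ≤ b := by
  unfold ex
  split_ifs
  · exact hw _
  · exact hb

/-- moving a walk by `-z` is the same as looking at the weights from `z` -/
lemma wt_map_sh_neg (w : Z2.edgeSet → ℝ) (z : ℤ × ℤ) {x y : ℤ × ℤ} (p : Z2.Walk x y) :
    wt (ex (fun e => w (shE z e))) (p.map (sh (-z))) = wt (ex w) p := by
  unfold wt
  rw [SimpleGraph.Walk.edges_map, List.map_map]
  congr 1
  apply List.map_congr_left
  intro e he
  have hmem : e ∈ Z2.edgeSet := p.edges_subset_edgeSet he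
  simp only [Function.comp_apply]
  rw [ex_of_mem w hmem, ex_of_mem _ ((sh (-z)).map_mem_edgeSet hmem)]
  congr 1
  apply Subtype.ext
  show (Sym2.map (sh (-z)) e).map (sh z) = e
  rw [Sym2.map_map]
  have : (sh z : ℤ × ℤ → ℤ × ℤ) ∘ (sh (-z)) = id := by
    funext v
    simp
  rw [this, Sym2.map_id]
  rfl

/-- moving a walk by `z` -/
lemma wt_map_sh (w : Z2.edgeSet → ℝ) (z : ℤ × ℤ) {x y : ℤ × ℤ} (p : Z2.Walk x y) :
    wt (ex w) (p.map (sh z)) = wt (ex (fun e => w (shE z e))) p := by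
  unfold wt
  rw [SimpleGraph.Walk.edges_map, List.map_map]
  congr 1
  apply List.map_congr_left
  intro e he
  have hmem : e ∈ Z2.edgeSet := p.edges_subset_edgeSet he
  simp only [Function.comp_apply]
  rw [ex_of_mem _ hmem, ex_of_mem _ ((sh z).map_mem_edgeSet hmem)]
  rfl

/-- a walk stays close to its starting point -/
lemma dist_le_length {x y : ℤ × ℤ} (p : Z2.Walk x y) :
    ∀ v ∈ p.support, (v.1 - x.1).natAbs + (v.2 - x.2).natAbs ≤ p.length := by
  induction p with
  | nil =>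
    intro v hv
    rw [SimpleGraph.Walk.support_nil, List.mem_singleton] at hv
    subst hv
    simp
  | @cons a b c h p ih =>
    intro v hv
    rw [SimpleGraph.Walk.support_cons, List.mem_cons] at hv
    rw [SimpleGraph.Walk.length_cons]
    rcases hv with hv | hv
    · subst hv
      simp
    · have h1 := ih v hv
      rw [Z2_adj_iff] at h
      omega

lemma mem_box_of_length {y : ℤ × ℤ} {p : Z2.Walk 0 y} {k : ℕ} (hp : p.length ≤ k) :
    ∀ v ∈ p.support, v ∈ box k := by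
  intro v hv
  have h := dist_le_length p v hv
  simp only [Prod.fst_zero, Prod.snd_zero, sub_zero] at h
  rw [mem_box]
  omega

/-- the edges of a walk -/
noncomputable def eset {x y : ℤ × ℤ} (p : Z2.Walk x y) : Finset Z2.edgeSet := by
  classical
  exact (p.edges.toFinset).subtype (· ∈ Z2.edgeSet)

lemma mem_eset {x y : ℤ × ℤ} (p : Z2.Walk x y) (e : Z2.edgeSet) : e ∈ eset p ↔ e.1 ∈ p.edges := by
  classical
  unfold eset
  rw [Finset.mem_subtype, List.mem_toFinset]

lemma sum_eset (w : Z2.edgeSet → ℝ) {x y : ℤ × ℤ} {p : Z2.Walk x y} (hp : p.IsPath) :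
    ∑ e ∈ eset p, w e = wt (ex w) p := by
  classical
  have h1 : ∑ e ∈ eset p, w e = ∑ e ∈ eset p, ex w e.1 :=
    Finset.sum_congr rfl fun e _ => (ex_coe w e).symm
  rw [h1]
  unfold eset
  rw [Finset.sum_subtype_of_mem (f := ex w) (fun e he => p.edges_subset_edgeSet
    (List.mem_toFinset.1 he)), List.sum_toFinset _ hp.isTrail.edges_nodup]
  rfl

lemma card_eset_le {x y : ℤ × ℤ} (p : Z2.Walk x y) : (eset p).card ≤ p.length := by
  classical
  unfold eset
  rw [Finset.card_subtype]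
  refine (Finset.card_filter_le _ _).trans ((List.toFinset_card_le _).trans ?_)
  rw [SimpleGraph.Walk.length_edges]

/-- edge sets of paths from the origin to `D` of length at most `k` -/
def famSet (D : Set (ℤ × ℤ)) (k : ℕ) : Set (Finset Z2.edgeSet) :=
  {S | ∃ y ∈ D, ∃ p : Z2.Walk 0 y, p.IsPath ∧ p.length ≤ k ∧ eset p = S}

lemma famSet_finite (D : Set (ℤ × ℤ)) (k : ℕ) : (famSet D k).Finite := by
  classical
  have h := ((((edgesIn k).subtype (· ∈ Z2.edgeSet)) : Finset Z2.edgeSet).powerset).finite_toSet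
  apply h.subset
  rintro S ⟨y, _, p, _, hk, rfl⟩
  rw [Finset.mem_coe, Finset.mem_powerset]
  intro e he
  rw [mem_eset] at he
  rw [Finset.mem_subtype, mem_edgesIn]
  exact ⟨fun v hv => mem_box_of_length hk v (p.mem_support_of_mem_edges he hv), e.2⟩

/-- the finite family of paths from the origin to `D` of length at most `k` -/
noncomputable def fam (D : Set (ℤ × ℤ)) (k : ℕ) : Finset (Finset Z2.edgeSet) :=
  (famSet_finite D k).toFinset

lemma mem_fam {D : Set (ℤ × ℤ)} {k : ℕ} {S : Finset Z2.edgeSet} :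
    S ∈ fam D k ↔ ∃ y ∈ D, ∃ p : Z2.Walk 0 y, p.IsPath ∧ p.length ≤ k ∧ eset p = S := by
  unfold fam
  rw [Set.Finite.mem_toFinset]
  rfl

lemma fam_nonempty {D : Set (ℤ × ℤ)} {k : ℕ} {y : ℤ × ℤ} (hy : y ∈ D) (p : Z2.Walk 0 y)
    (hp : p.length ≤ k) : (fam D k).Nonempty :=
  ⟨eset p.bypass, mem_fam.2 ⟨y, hy, p.bypass, p.bypass_isPath,
    (p.length_bypass_le_length).trans hp, rfl⟩⟩

lemma fam_card {D : Set (ℤ × ℤ)} {k : ℕ} : ∀ S ∈ fam D k, S.card ≤ k := by
  intro S hS
  obtain ⟨y, _, p, _, hk, rfl⟩ := mem_fam.1 hS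
  exact (card_eset_le p).trans hk

/-- smallest weight of a path from the origin to `D` of length at most `k` -/
noncomputable def tau (D : Set (ℤ × ℤ)) (k : ℕ) (h : (fam D k).Nonempty) (w : Z2.edgeSet → ℝ) : ℝ :=
  minW (fam D k) h w

lemma tau_le {D : Set (ℤ × ℤ)} {k : ℕ} (h : (fam D k).Nonempty) {w : Z2.edgeSet → ℝ}
    (hw : ∀ e, 0 ≤ w e) {y : ℤ × ℤ} (hy : y ∈ D) (p : Z2.Walk 0 y) (hp : p.length ≤ k) :
    tau D k h w ≤ wt (ex w) p := by
  refine le_trans ?_ (wt_bypass_le (ex_nonneg hw) p)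
  rw [← sum_eset w p.bypass_isPath]
  unfold tau minW
  exact Finset.inf'_le _ (mem_fam.2 ⟨y, hy, p.bypass, p.bypass_isPath,
    (p.length_bypass_le_length).trans hp, rfl⟩)

lemma exists_tau {D : Set (ℤ × ℤ)} {k : ℕ} (h : (fam D k).Nonempty) (w : Z2.edgeSet → ℝ) :
    ∃ y ∈ D, ∃ p : Z2.Walk 0 y, p.IsPath ∧ p.length ≤ k ∧ wt (ex w) p = tau D k h w := by
  obtain ⟨S, hS, hSe⟩ := Finset.exists_mem_eq_inf' h (fun S => ∑ i ∈ S, w i)
  obtain ⟨y, hy, p, hp, hk, rfl⟩ := mem_fam.1 hS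
  refine ⟨y, hy, p, hp, hk, ?_⟩
  rw [← sum_eset w hp]
  exact hSe.symm

lemma tau_nonneg {D : Set (ℤ × ℤ)} {k : ℕ} (h : (fam D k).Nonempty) {w : Z2.edgeSet → ℝ}
    (hw : ∀ e, 0 ≤ w e) : 0 ≤ tau D k h w := by
  obtain ⟨y, _, p, _, _, hp⟩ := exists_tau h w
  rw [← hp]
  exact wt_nonneg (ex_nonneg hw) p

/-- the line `A = 2 n` -/
def line (n : ℕ) : Set (ℤ × ℤ) := {y | A y = 2 * n}

/-- the value `a` of `A` is attained along a walk -/
lemma exists_level {x y : ℤ × ℤ} (p : Z2.Walk x y) (a : ℤ) (h1 : A x ≤ a) (h2 : a ≤ A y) :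
    ∃ t ≤ p.length, A (p.getVert t) = a := by
  induction p with
  | nil => exact ⟨0, le_rfl, le_antisymm h1 h2⟩
  | @cons u v c h p ih =>
    rcases h1.eq_or_lt with h0 | h0
    · exact ⟨0, Nat.zero_le _, by simpa using h0⟩
    · have h3 : A v ≤ a := by
        rw [Z2_adj_iff] at h
        unfold A at h0 ⊢
        omega
      obtain ⟨t, ht, hta⟩ := ih h3 h2
      refine ⟨t + 1, ?_, ?_⟩
      · rw [SimpleGraph.Walk.length_cons]
        omega
      · rw [SimpleGraph.Walk.getVert_cons_succ]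
        exact hta

/-- a shortest walk with monotone coordinates -/
lemma l1_walk (x y : ℤ × ℤ) : ∃ p : Z2.Walk x y,
    p.length = (x.1 - y.1).natAbs + (x.2 - y.2).natAbs ∧
    ∀ v ∈ p.support, (min x.1 y.1 ≤ v.1 ∧ v.1 ≤ max x.1 y.1) ∧
      (min x.2 y.2 ≤ v.2 ∧ v.2 ≤ max x.2 y.2) := by
  obtain ⟨n, hn⟩ : ∃ n : ℕ, n = (x.1 - y.1).natAbs + (x.2 - y.2).natAbs := ⟨_, rfl⟩
  induction n generalizing x with
  | zero =>
    have h1 : x = y := Prod.ext (by omega) (by omega)
    subst h1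
    exact ⟨SimpleGraph.Walk.nil, by simp, by simp⟩
  | succ n ih =>
    have hex : ∃ x' : ℤ × ℤ, Z2.Adj x x' ∧ n = (x'.1 - y.1).natAbs + (x'.2 - y.2).natAbs ∧
        (min x.1 y.1 ≤ x'.1 ∧ x'.1 ≤ max x.1 y.1) ∧ (min x.2 y.2 ≤ x'.2 ∧ x'.2 ≤ max x.2 y.2) := by
      rcases lt_trichotomy x.1 y.1 with h | h | h
      · refine ⟨(x.1 + 1, x.2), ?_, ?_, ?_, ?_⟩
        · rw [Z2_adj_iff]; simp
        · simp only; omega
        · simp only; omega
        · simp only; omega
      · rcases lt_trichotomy x.2 y.2 with h' | h' | h'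
        · refine ⟨(x.1, x.2 + 1), ?_, ?_, ?_, ?_⟩
          · rw [Z2_adj_iff]; simp
          · simp only; omega
          · simp only; omega
          · simp only; omega
        · omega
        · refine ⟨(x.1, x.2 - 1), ?_, ?_, ?_, ?_⟩
          · rw [Z2_adj_iff]; simp
          · simp only; omega
          · simp only; omega
          · simp only; omega
      · refine ⟨(x.1 - 1, x.2), ?_, ?_, ?_, ?_⟩
        · rw [Z2_adj_iff]; simp
        · simp only; omega
        · simp only; omega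
        · simp only; omega
    obtain ⟨x', hadj, hn', hb1, hb2⟩ := hex
    obtain ⟨p, hp, hs⟩ := ih x' hn'
    refine ⟨SimpleGraph.Walk.cons hadj p, ?_, ?_⟩
    · rw [SimpleGraph.Walk.length_cons, hp, ← hn', hn]
    · intro v hv
      rw [SimpleGraph.Walk.support_cons, List.mem_cons] at hv
      rcases hv with hv | hv
      · subst hv
        omega
      · have := hs v hv
        omega

lemma line_nonempty {n k : ℕ} (h : 2 * n ≤ k) : (fam (line n) k).Nonempty := by
  obtain ⟨p, hp, _⟩ := l1_walk 0 (pt n 0)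
  refine fam_nonempty (y := pt n 0) ?_ p ?_
  · show A (pt n 0) = 2 * n
    rw [A_pt]
  · rw [hp]
    unfold pt
    simp only [Prod.fst_zero, Prod.snd_zero]
    omega

lemma tau_line_le {n k : ℕ} (h : 2 * n ≤ k) (hn : (fam (line n) k).Nonempty) {w : Z2.edgeSet → ℝ}
    {b : ℝ} (hb : 0 ≤ b) (hw : ∀ e, 0 ≤ w e ∧ w e ≤ b) : tau (line n) k hn w ≤ 2 * b * n := by
  obtain ⟨p, hp, _⟩ := l1_walk 0 (pt n 0)
  have hlen : p.length = 2 * n := by
    rw [hp]
    unfold pt
    simp only [Prod.fst_zero, Prod.snd_zero]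
    omega
  have h1 := tau_le hn (fun e => (hw e).1) (y := pt n 0) (by
    show A (pt n 0) = 2 * n
    rw [A_pt]) p (by omega)
  have h2 := wt_le_length (ex_le hb fun e => (hw e).2) p
  rw [hlen] at h2
  push_cast at h2
  linarith

/-- splitting a path at the first level -/
lemma tau_super {n k : ℕ} (h1 : (fam (line n) k).Nonempty) (h2 : (fam (line (2 * n)) k).Nonempty)
    {w : Z2.edgeSet → ℝ} (hw : ∀ e, 0 ≤ w e) :
    ∃ z ∈ box k, A z = 2 * n ∧
      tau (line n) k h1 w + tau (line n) k h1 (fun e => w (shE z e)) ≤ tau (line (2 * n)) k h2 w := by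
  obtain ⟨y, hy, p, hp, hk, hpt⟩ := exists_tau h2 w
  have hy' : A y = 2 * (2 * n : ℕ) := hy
  obtain ⟨t, ht, hta⟩ := exists_level p (2 * n) (by
    show A (0 : ℤ × ℤ) ≤ _
    unfold A
    simp) (by rw [hy']; push_cast; omega)
  refine ⟨p.getVert t, mem_box_of_length hk _ (p.getVert_mem_support t), hta, ?_⟩
  rw [← hpt]
  have e1 : wt (ex w) p = wt (ex w) (p.take t) + wt (ex w) (p.drop t) := by
    rw [← wt_append, SimpleGraph.Walk.append_take_drop_eq]
  rw [e1]
  have i1 : tau (line n) k h1 w ≤ wt (ex w) (p.take t) := by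
    refine tau_le h1 hw (y := p.getVert t) hta _ ?_
    rw [SimpleGraph.Walk.take_length]
    omega
  set z := p.getVert t with hz
  have i2 : tau (line n) k h1 (fun e => w (shE z e)) ≤ wt (ex w) (p.drop t) := by
    have h0 : sh (-z) (p.getVert t) = 0 := add_neg_cancel z
    have h3 := tau_le h1 (w := fun e => w (shE z e)) (fun e => hw _) (y := sh (-z) y) (by
      show A (y + -z) = 2 * n
      unfold A at hta hy' ⊢
      simp only [Prod.fst_add, Prod.snd_add, Prod.fst_neg, Prod.snd_neg]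
      push_cast at hy'
      omega) (((p.drop t).map (sh (-z))).copy h0 rfl) (by
      rw [SimpleGraph.Walk.length_copy, SimpleGraph.Walk.length_map,
        SimpleGraph.Walk.drop_length]
      omega)
    rw [wt_copy, wt_map_sh_neg] at h3
    exact h3
  linarith

lemma filter_sum_le (w : Sym2 (ℤ × ℤ) → ℝ) (hw : ∀ e, 0 ≤ w e) (h0 : ℝ) (l : List (Sym2 (ℤ × ℤ))) :
    h0 * ((l.filter (fun e => h0 ≤ w e)).length : ℝ) ≤ (l.map w).sum := by
  induction l with
  | nil => simp
  | cons a l ih =>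
    rw [List.filter_cons, List.map_cons, List.sum_cons]
    by_cases h : h0 ≤ w a
    · simp only [h, decide_true, if_true, List.length_cons]
      push_cast
      linarith
    · simp only [h, decide_false, Bool.false_eq_true, if_false]
      linarith [hw a]

/-- long paths are heavy -/
lemma heavy {R m₀ : ℕ} {θ h0 : ℝ} {w : Z2.edgeSet → ℝ} (hw : ∀ e, 0 ≤ w e) (hh0 : 0 ≤ h0)
    (hP : PGood R m₀ θ h0 (ex w)) {y : ℤ × ℤ} {p : Z2.Walk 0 y} (hp : p.IsPath)
    (hm : m₀ ≤ p.length) (hR : p.length ≤ R) : h0 * (θ * p.length) ≤ wt (ex w) p := by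
  have h1 := hP 0 y p hp (mem_box_of_length hR) hm
  have h2 := filter_sum_le (ex w) (ex_nonneg hw) h0 p.edges
  refine le_trans (mul_le_mul_of_nonneg_left ?_ hh0) h2
  convert h1 using 3

/-- restricting the length does not change the minimum -/
lemma tau_peierls {n k R : ℕ} {θ h0 b : ℝ} {w : Z2.edgeSet → ℝ} (hw : ∀ e, 0 ≤ w e ∧ w e ≤ b)
    (hh0 : 0 ≤ h0) (hθ : 0 ≤ θ) (hb : 0 ≤ b) (hkR : k ≤ R) (hnk : 2 * n ≤ k)
    (hbig : 2 * b * n < h0 * (θ * k))
    (hP : PGood R k θ h0 (ex w)) (h1 : (fam (line n) k).Nonempty)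
    (h2 : (fam (line n) R).Nonempty) : tau (line n) k h1 w ≤ tau (line n) R h2 w := by
  obtain ⟨y, hy, p, hp, hk, hpt⟩ := exists_tau h2 w
  rcases le_total p.length k with hl | hl
  · rw [← hpt]
    exact tau_le h1 (fun e => (hw e).1) hy p hl
  · exfalso
    have h3 := heavy (fun e => (hw e).1) hh0 hP hp hl hk
    have h4 := tau_line_le (hnk.trans hkR) h2 hb hw
    rw [← hpt] at h4
    have h5 : h0 * (θ * k) ≤ h0 * (θ * p.length) := by
      have : (k : ℝ) ≤ p.length := by exact_mod_cast hl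
      gcongr
    linarith

/-- comparison with the unrestricted passage time -/
lemma tau_le_of_passageTime {n k : ℕ} {θ h0 s : ℝ} {w : Z2.edgeSet → ℝ} (hw : ∀ e, 0 ≤ w e)
    (hh0 : 0 ≤ h0) (hbig : s ≤ h0 * (θ * k))
    (hP : PGood k k θ h0 (ex w)) (h1 : (fam (line n) k).Nonempty)
    (hs : passageTime (ex w) 0 (pt n 0) < s) : tau (line n) k h1 w ≤ s := by
  obtain ⟨q0, _, _⟩ := l1_walk 0 (pt n 0)
  have : Nonempty (Z2.Walk 0 (pt (n : ℤ) 0)) := ⟨q0⟩
  obtain ⟨q, hq⟩ := exists_lt_of_ciInf_lt hs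
  have hpt : A (pt (n : ℤ) 0) = 2 * n := A_pt _ _
  have hq' := (wt_bypass_le (ex_nonneg hw) q).trans_lt hq
  set p := q.bypass with hp
  have hpath : p.IsPath := q.bypass_isPath
  rcases le_total p.length k with hl | hl
  · exact (tau_le h1 hw (y := pt n 0) hpt p hl).trans hq'.le
  · exfalso
    have hlen : (p.take k).length = k := by
      rw [SimpleGraph.Walk.take_length]
      omega
    have h3 := heavy hw hh0 hP (p := p.take k) (hpath.take k) (by omega) (by omega)
    rw [hlen] at h3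
    have h4 : wt (ex w) (p.take k) ≤ wt (ex w) p := by
      have e1 : wt (ex w) p = wt (ex w) (p.take k) + wt (ex w) (p.drop k) := by
        rw [← wt_append, SimpleGraph.Walk.append_take_drop_eq]
      rw [e1]
      linarith [wt_nonneg (ex_nonneg hw) (p.drop k)]
    linarith

end UpperMean
end Pool.Agent.Helper33_FPP
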