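import Pool.Agent.Helper61_FPP.Mean

/-!
# Upper bound for the mean passage time along the diagonal direction
-/

set_option autoImplicit false

namespace Pool.Agent.Helper33_FPP
namespace UpperMean

open Finset MeasureTheory ProbabilityTheory Filter Topology

/-- the compensator decreases under halving -/
lemma comp_step {E₀ : ℝ} (hE : 0 ≤ E₀) {m : ℕ} (hm : 1 ≤ m) :
    E₀ / 2 * (Real.sqrt m * (Real.log m + 1)) ≤
      2 * E₀ * (Real.sqrt m * (Real.log m + 3)) -
        2 * E₀ * (Real.sqrt (2 * m : ℕ) * (Real.log (2 * m : ℕ) + 3)) / 2 := by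
  have hm' : (1 : ℝ) ≤ m := by exact_mod_cast hm
  have hL : 0 ≤ Real.log m := Real.log_nonneg hm'
  have hS : 0 ≤ Real.sqrt m := Real.sqrt_nonneg _
  push_cast
  rw [Real.sqrt_mul (by norm_num : (0 : ℝ) ≤ 2), Real.log_mul (by norm_num) (by positivity)]
  have h2 : Real.sqrt 2 ≤ 1.4143 := by
    rw [Real.sqrt_le_left (by norm_num)]
    norm_num
  have hl2 : Real.log 2 ≤ 0.6932 := by
    have := Real.log_two_lt_d9
    linarith
  have hl20 : 0 ≤ Real.log 2 := Real.log_nonneg (by norm_num)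
  have hs20 : 0 ≤ Real.sqrt 2 := Real.sqrt_nonneg _
  set L := Real.log m with hLd
  have key : 0 ≤ 2 * (L + 3) - Real.sqrt 2 * (Real.log 2 + L + 3) - (L + 1) / 2 := by
    have h3 : Real.sqrt 2 * (Real.log 2 + L + 3) ≤ 1.4143 * (0.6932 + L + 3) := by
      apply mul_le_mul h2 (by linarith) (by positivity) (by norm_num)
    linarith
  have e : 2 * E₀ * (Real.sqrt m * (L + 3)) -
        2 * E₀ * (Real.sqrt 2 * Real.sqrt m * (Real.log 2 + L + 3)) / 2
        - E₀ / 2 * (Real.sqrt m * (L + 1))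
      = E₀ * Real.sqrt m * (2 * (L + 3) - Real.sqrt 2 * (Real.log 2 + L + 3) - (L + 1) / 2) := by
    ring
  have : 0 ≤ E₀ * Real.sqrt m *
      (2 * (L + 3) - Real.sqrt 2 * (Real.log 2 + L + 3) - (L + 1) / 2) := by positivity
  linarith

/-- iterating the almost superadditivity over dyadic scales -/
lemma iterate_dyadic {α : ℕ → ℝ} {E₀ ℓ : ℝ} (hE : 0 ≤ E₀)
    (h : ∀ n : ℕ, 1 ≤ n → 2 * α n ≤ α (2 * n) + E₀ * (Real.sqrt n * (Real.log n + 1)))
    (hlim : ∀ ε : ℝ, 0 < ε → ∃ N₀ : ℕ, ∀ N : ℕ, N₀ ≤ N → α N ≤ (ℓ + ε) * N) {n : ℕ} (hn : 1 ≤ n) :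
    α n ≤ ℓ * n + 2 * E₀ * (Real.sqrt n * (Real.log n + 3)) := by
  set g : ℕ → ℝ := fun m => 2 * E₀ * (Real.sqrt m * (Real.log m + 3)) with hg
  have hg0 : ∀ m : ℕ, 1 ≤ m → 0 ≤ g m := by
    intro m hm
    have hm' : (1 : ℝ) ≤ m := by exact_mod_cast hm
    have hL : 0 ≤ Real.log m := Real.log_nonneg hm'
    simp only [hg]
    positivity
  have hstep : ∀ m : ℕ, 1 ≤ m → α m - g m ≤ (α (2 * m) - g (2 * m)) / 2 := by
    intro m hm
    have h1 := h m hm
    have h2 : E₀ / 2 * (Real.sqrt m * (Real.log m + 1)) ≤ g m - g (2 * m) / 2 := comp_step hE hm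
    linarith
  have hiter : ∀ j : ℕ, α n - g n ≤ (α (2 ^ j * n) - g (2 ^ j * n)) / 2 ^ j := by
    intro j
    induction j with
    | zero => simp
    | succ j ih =>
      have hm : 1 ≤ 2 ^ j * n := Nat.one_le_iff_ne_zero.2 (by positivity)
      have h1 := hstep (2 ^ j * n) hm
      have e1 : 2 * (2 ^ j * n) = 2 ^ (j + 1) * n := by ring
      rw [e1] at h1
      refine ih.trans ?_
      rw [div_le_div_iff₀ (by positivity) (by positivity), pow_succ]
      have : (0 : ℝ) < 2 ^ j := by positivity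
      nlinarith
  refine le_of_forall_pos_le_add fun ε hε => ?_
  have hn' : (1 : ℝ) ≤ n := by exact_mod_cast hn
  obtain ⟨N₀, hN₀⟩ := hlim (ε / n) (by positivity)
  obtain ⟨j, hj⟩ : ∃ j : ℕ, N₀ ≤ 2 ^ j * n := by
    refine ⟨N₀, ?_⟩
    calc N₀ ≤ 2 ^ N₀ := Nat.lt_two_pow_self.le
      _ ≤ 2 ^ N₀ * n := Nat.le_mul_of_pos_right _ hn
  have h1 := hN₀ (2 ^ j * n) hj
  have h2 := hiter j
  have h3 := hg0 (2 ^ j * n) (Nat.one_le_iff_ne_zero.2 (by positivity))
  have h4 : (α (2 ^ j * n) - g (2 ^ j * n)) / 2 ^ j ≤ (ℓ + ε / n) * n := by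
    rw [div_le_iff₀ (by positivity)]
    push_cast at h1
    have : (ℓ + ε / n) * (2 ^ j * n) = (ℓ + ε / n) * n * 2 ^ j := by ring
    linarith
  have h5 : (ℓ + ε / n) * n = ℓ * n + ε := by
    field_simp
  have h6 : g n = 2 * E₀ * (Real.sqrt n * (Real.log n + 3)) := rfl
  linarith

section

variable {Ω : Type} [MeasurableSpace Ω] {P : Measure Ω} [IsProbabilityMeasure P]
  {F : Measure ℝ} [IsProbabilityMeasure F] {X : Z2.edgeSet → Ω → ℝ} {b : ℝ}

/-- the mean at scale `n` -/
noncomputable def al (P : Measure Ω) (X : Z2.edgeSet → Ω → ℝ) (κ : ℕ) (hκ : 2 ≤ κ) (n : ℕ) : ℝ :=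
  mean P X (line n) (κ * n) (line_nonempty (Nat.mul_le_mul_right n hκ))

lemma exp_two_log {n : ℕ} (hn : 1 ≤ n) : Real.exp (-(2 * Real.log n)) = 1 / (n : ℝ) ^ 2 := by
  have hn' : (0 : ℝ) < n := by exact_mod_cast hn
  rw [Real.exp_neg, two_mul, Real.exp_add, Real.exp_log hn', one_div, sq]

/-- one step -/
lemma Iid.step (hX : Iid P F X b) (hb : 1 ≤ b) {κ : ℕ} (hκ : 2 ≤ κ) {θ h0 C₁ : ℝ}
    (hh0 : 0 ≤ h0) (hθ : 0 ≤ θ) (hbig : 2 * b < h0 * (θ * κ))
    (hPG : ∀ n : ℕ, 1 ≤ n →
      P.real {ω | ¬ PGood (κ * (2 * n)) (κ * n) θ h0 (ex (fun e => X e ω))} ≤ C₁ / n)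
    {n : ℕ} (hn : 1 ≤ n) : 2 * al P X κ hκ n ≤ al P X κ hκ (2 * n) +
      (40 * b * κ + 4 * b * C₁) * (Real.sqrt n * (Real.log n + 1)) := by
  have hn' : (1 : ℝ) ≤ n := by exact_mod_cast hn
  have hκ' : (2 : ℝ) ≤ κ := by exact_mod_cast hκ
  have hb0 : 0 < b := by linarith
  have hC₁ : 0 ≤ C₁ := by
    have h := measureReal_nonneg.trans (hPG 1 le_rfl)
    simpa using h
  set k := κ * (2 * n) with hk
  have hne : (fam (line n) k).Nonempty := line_nonempty (by rw [hk]; nlinarith)
  have hnk : 2 * (2 * n) ≤ k := by rw [hk]; nlinarith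
  have hL : 0 ≤ Real.log n := Real.log_nonneg hn'
  have hS1 : 1 ≤ Real.sqrt n := by
    rw [← Real.sqrt_one]
    exact Real.sqrt_le_sqrt hn'
  have h1 := hX.mean_peierls hb0.le (n := n) (k := κ * n) (R := k) hh0 hθ
    (by rw [hk]; nlinarith) (Nat.mul_le_mul_right n hκ) (by
      push_cast
      have e : h0 * (θ * (κ * n)) = h0 * (θ * κ) * n := by ring
      rw [e]
      exact mul_lt_mul_of_pos_right hbig (by positivity))
    (line_nonempty (Nat.mul_le_mul_right n hκ)) hne
  have hsq : 0 < Real.sqrt (k + 1) := Real.sqrt_pos.2 (by positivity)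
  set t := 2 * b * Real.sqrt (k + 1) * (2 * Real.log n) with ht
  have ht0 : 0 ≤ t := by positivity
  have h2 := hX.mean_super hb0 hnk hne (line_nonempty hnk) ht0
  have e1 : t / (2 * b * Real.sqrt (k + 1)) = 2 * Real.log n := by
    rw [ht]
    field_simp
  rw [e1, exp_two_log hn] at h2
  have hp := hPG n hn
  have hkr : (k : ℝ) = 2 * κ * n := by
    rw [hk]
    push_cast
    ring
  -- the bound for `t`
  have hsqrt : Real.sqrt (k + 1) ≤ 2 * κ * Real.sqrt n := by
    rw [Real.sqrt_le_left (by positivity), mul_pow, Real.sq_sqrt (by positivity), hkr]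
    have h3 : (1 : ℝ) ≤ κ * n := by nlinarith
    have h4 : 3 * (κ * n : ℝ) ≤ (2 * κ) ^ 2 * n := by nlinarith
    nlinarith
  have ht1 : t ≤ 8 * b * κ * (Real.sqrt n * Real.log n) := by
    rw [ht]
    have : 2 * b * Real.sqrt (k + 1) * (2 * Real.log n)
        ≤ 2 * b * (2 * κ * Real.sqrt n) * (2 * Real.log n) := by gcongr
    linarith
  -- the union bound
  have hu : 2 * b * n * ((2 * k + 1) * (4 * (1 / (n : ℝ) ^ 2))) ≤ 40 * b * κ := by
    have e2 : 2 * b * n * ((2 * k + 1) * (4 * (1 / (n : ℝ) ^ 2))) = 8 * b * ((2 * k + 1) / n) := by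
      field_simp
      ring
    rw [e2, hkr]
    have h3 : (2 * (2 * κ * n) + 1) / (n : ℝ) ≤ 5 * κ := by
      rw [div_le_iff₀ (by positivity)]
      nlinarith
    nlinarith
  -- the Peierls term
  have hpp : 2 * b * n * P.real {ω | ¬ PGood k (κ * n) θ h0 (ex (fun e => X e ω))}
      ≤ 2 * b * C₁ := by
    have h3 : 2 * b * n * P.real {ω | ¬ PGood k (κ * n) θ h0 (ex (fun e => X e ω))}
        ≤ 2 * b * n * (C₁ / n) := mul_le_mul_of_nonneg_left hp (by positivity)
    have e3 : 2 * b * n * (C₁ / n) = 2 * b * C₁ := by field_simp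
    linarith
  have hal : al P X κ hκ n ≤ mean P X (line n) k hne + 2 * b * C₁ := by
    have : al P X κ hκ n ≤ mean P X (line n) k hne + 2 * b * n *
      P.real {ω | ¬ PGood k (κ * n) θ h0 (ex (fun e => X e ω))} := h1
    linarith
  have hal2 : al P X κ hκ (2 * n) = mean P X (line (2 * n)) k (line_nonempty hnk) := rfl
  rw [hal2]
  have hfin : 8 * b * κ * (Real.sqrt n * Real.log n) + 40 * b * κ + 4 * b * C₁
      ≤ (40 * b * κ + 4 * b * C₁) * (Real.sqrt n * (Real.log n + 1)) := by
    have h3 : 0 ≤ Real.sqrt n * Real.log n := by positivity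
    have h4 : 0 ≤ b * κ := by positivity
    have h5 : 0 ≤ b * C₁ := by positivity
    have h6 : Real.sqrt n * (Real.log n + 1) = Real.sqrt n * Real.log n + Real.sqrt n := by ring
    rw [h6]
    have h7 := mul_nonneg h4 h3
    have h8 := mul_nonneg h5 h3
    have h9 : 0 ≤ b * κ * (Real.sqrt n - 1) := mul_nonneg h4 (by linarith)
    have h10 : 0 ≤ b * C₁ * (Real.sqrt n - 1) := mul_nonneg h5 (by linarith)
    nlinarith
  linarith

omit [IsProbabilityMeasure F] in
/-- the limit of the means -/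
lemma Iid.al_lim (hX : Iid P F X b) (hb : 1 ≤ b) {κ : ℕ} (hκ : 2 ≤ κ) {θ h0 C₁ c : ℝ}
    (hh0 : 0 ≤ h0) (hc : 0 ≤ c) (hbig : 2 * c + 1 ≤ h0 * (θ * κ))
    (hPG : ∀ n : ℕ, 1 ≤ n →
      P.real {ω | ¬ PGood (κ * n) (κ * n) θ h0 (ex (fun e => X e ω))} ≤ C₁ / n)
    (hlim : ∀ ε > 0, Tendsto (fun n : ℕ =>
      P.real {ω | (2 * c + ε) * n ≤ passageTime (ext X ω) 0 (pt n 0)}) atTop (𝓝 0))
    {ε : ℝ} (hε : 0 < ε) : ∃ N₀ : ℕ, ∀ N : ℕ, N₀ ≤ N → al P X κ hκ N ≤ (2 * c + ε) * N := by
  have hb0 : 0 < b := by linarith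
  set δ := min (ε / 2) 1 with hδ
  have hδ0 : 0 < δ := by positivity
  have hT : Tendsto (fun n : ℕ => 2 * b *
      (P.real {ω | (2 * c + δ) * n ≤ passageTime (ext X ω) 0 (pt n 0)} + C₁ / n)) atTop (𝓝 0) := by
    have h1 := ((hlim δ hδ0).add (tendsto_const_div_atTop_nhds_zero_nat C₁)).const_mul (2 * b)
    simpa using h1
  have hev := (hT.eventually (gt_mem_nhds (show (0 : ℝ) < ε / 2 by positivity))).and
    (eventually_ge_atTop 1)
  obtain ⟨N₀, hN₀⟩ := eventually_atTop.1 hev
  refine ⟨N₀, fun N hN => ?_⟩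
  obtain ⟨h1, hN1⟩ := hN₀ N hN
  have hN' : (1 : ℝ) ≤ N := by exact_mod_cast hN1
  have h2 := hX.mean_le_of_passageTime hb0.le (n := N) (k := κ * N) (θ := θ) (h0 := h0)
    (s := (2 * c + δ) * N) hh0 (by positivity) (Nat.mul_le_mul_right N hκ) (by
      push_cast
      have e : h0 * (θ * (κ * N)) = h0 * (θ * κ) * N := by ring
      rw [e]
      have : 2 * c + δ ≤ h0 * (θ * κ) := by
        have := min_le_right (ε / 2) 1
        linarith
      exact mul_le_mul_of_nonneg_right this (by positivity))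
    (line_nonempty (Nat.mul_le_mul_right N hκ))
  have h3 := hPG N hN1
  have h4 : al P X κ hκ N ≤ (2 * c + δ) * N + 2 * b * N *
      (P.real {ω | (2 * c + δ) * N ≤ passageTime (ext X ω) 0 (pt N 0)} +
        P.real {ω | ¬ PGood (κ * N) (κ * N) θ h0 (ex (fun e => X e ω))}) := h2
  refine h4.trans ?_
  have h5 : 2 * b * N *
      (P.real {ω | (2 * c + δ) * N ≤ passageTime (ext X ω) 0 (pt N 0)} +
        P.real {ω | ¬ PGood (κ * N) (κ * N) θ h0 (ex (fun e => X e ω))})
      ≤ ε / 2 * N := by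
    have h6 : 2 * b * N *
      (P.real {ω | (2 * c + δ) * N ≤ passageTime (ext X ω) 0 (pt N 0)} +
        P.real {ω | ¬ PGood (κ * N) (κ * N) θ h0 (ex (fun e => X e ω))})
      ≤ 2 * b * N * (P.real {ω | (2 * c + δ) * N ≤ passageTime (ext X ω) 0 (pt N 0)} + C₁ / N) := by
      gcongr
    have h7 : 2 * b * N *
        (P.real {ω | (2 * c + δ) * N ≤ passageTime (ext X ω) 0 (pt N 0)} + C₁ / N)
        = 2 * b * (P.real {ω | (2 * c + δ) * N ≤ passageTime (ext X ω) 0 (pt N 0)} + C₁ / N) * N := by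
      ring
    rw [h7] at h6
    have h8 := mul_le_mul_of_nonneg_right h1.le (by positivity : (0 : ℝ) ≤ N)
    linarith
  have h9 : δ * N ≤ ε / 2 * N := mul_le_mul_of_nonneg_right (min_le_left _ _) (by positivity)
  linarith

/-- the end point argument -/
lemma Iid.upper (hX : Iid P F X b) (hb : 1 ≤ b) {c : ℝ} (hc : 0 < c) {κ n R : ℕ} (hκ : 2 ≤ κ)
    {x : ℤ × ℤ}
    (hbox : ∀ v : ℤ × ℤ, |v.1 - x.1| ≤ κ * n → |v.2 - x.2| ≤ κ * n → v ∈ box R)
    (hlow : ∀ y ∈ box R, c * (|(A x - A y : ℤ)| + |(B x - B y : ℤ)| : ℤ) - 1 ≤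
        ∫ ω, TT (ext X ω) (box R) x y ∂P) {t : ℝ} (ht : 0 ≤ t) :
    ∫ ω, TT (ext X ω) (box R) x (x + pt n 0) ∂P ≤
      al P X κ hκ n + b / c * (al P X κ hκ n - 2 * c * n + 1 + t) +
      4 * b * n * ((2 * (κ * n : ℕ) + 1) *
        (4 * Real.exp (-(t / (2 * b * Real.sqrt ((κ * n : ℕ) + 1)))))) := by
  have hb0 : 0 < b := by linarith
  set K := κ * n with hK
  have hne : (fam (line n) K).Nonempty := line_nonempty (Nat.mul_le_mul_right n hκ)
  have hX' := hX.shift x
  have hK2 : 2 * n ≤ K := Nat.mul_le_mul_right n hκ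
  have hboxK : ∀ v : ℤ × ℤ, v ∈ box K → v + x ∈ box R := by
    intro v hv
    rw [mem_box] at hv
    apply hbox
    · simp only [Prod.fst_add, add_sub_cancel_right]
      rw [abs_le]
      rw [hK] at hv
      push_cast at hv
      exact hv.1
    · simp only [Prod.snd_add, add_sub_cancel_right]
      rw [abs_le]
      rw [hK] at hv
      push_cast at hv
      exact hv.2
  -- comparison of walks from the origin and from `x`
  have hTT : ∀ ω, ∀ {y : ℤ × ℤ} (p : Z2.Walk 0 y), p.length ≤ K →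
      TT (ext X ω) (box R) x (x + y) ≤ wt (ex (fun e => X (shE x e) ω)) p ∧
      ∃ q : Z2.Walk x (x + y), IsIn (box R) q ∧ wt (ext X ω) q =
        wt (ex (fun e => X (shE x e) ω)) p := by
    intro ω y p hp
    have h0 : sh x 0 = x := zero_add x
    have h1 : sh x y = x + y := add_comm y x
    have hin : IsIn (box R) ((p.map (sh x)).copy h0 h1) := by
      apply isIn_copy
      intro v hv
      rw [SimpleGraph.Walk.support_map, List.mem_map] at hv
      obtain ⟨u, hu, rfl⟩ := hv
      exact hboxK u (mem_box_of_length hp u hu)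
    have hwt : wt (ext X ω) ((p.map (sh x)).copy h0 h1) =
        wt (ex (fun e => X (shE x e) ω)) p := by
      rw [wt_copy, ext_eq, wt_map_sh]
    refine ⟨?_, _, hin, hwt⟩
    rw [← hwt]
    exact TT_le (ex_nonneg fun e => hX.nonneg e ω) hin
  -- trivial bound
  have htriv : ∀ ω, TT (ext X ω) (box R) x (x + pt n 0) ≤ 2 * b * n := by
    intro ω
    obtain ⟨p, hp, _⟩ := l1_walk 0 (pt n 0)
    have hlen : p.length = 2 * n := by
      rw [hp]
      unfold pt
      simp only [Prod.fst_zero, Prod.snd_zero]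
      omega
    refine ((hTT ω p (by omega)).1).trans ?_
    have h2 := wt_le_length (ex_le hb0.le fun e => hX'.le e ω) p
    rw [hlen] at h2
    push_cast at h2
    linarith
  -- the bad event
  set s := (box K).filter (fun z => A z = 2 * n) with hs
  set E : ℤ × ℤ → Set Ω := fun y => {ω | ∃ h : (fam {y} K).Nonempty,
    t ≤ |tau {y} K h (fun e => X (shE x e) ω) - mean P (fun e => X (shE x e)) {y} K h|} with hE
  have hEz : ∀ y ∈ s, P.real (E y) ≤ 4 * Real.exp (-(t / (2 * b * Real.sqrt (K + 1)))) := by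
    intro y _
    by_cases h : (fam {y} K).Nonempty
    · refine le_trans (measureReal_mono ?_) (hX'.conc hb0 h ht)
      rintro ω ⟨_, hω⟩
      exact hω
    · have : E y = ∅ := by
        rw [hE]
        ext ω
        simp only [Set.mem_ofPred_eq, Set.mem_empty_iff_false, iff_false]
        rintro ⟨h', _⟩
        exact h h'
      rw [this]
      simp only [measureReal_empty]
      positivity
  have hBad := measureReal_exists_le (P := P) s E hEz
  have hcard : (s.card : ℝ) ≤ 2 * K + 1 := by exact_mod_cast card_level_le K n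
  have hBad' : P.real {ω | ∃ z ∈ s, ω ∈ E z} ≤
      (2 * K + 1) * (4 * Real.exp (-(t / (2 * b * Real.sqrt (K + 1))))) :=
    hBad.trans (mul_le_mul_of_nonneg_right hcard (by positivity))
  have hexN : ∀ ω e, 0 ≤ ext X ω e := fun ω => ex_nonneg fun e => hX.nonneg e ω
  -- the lower bound for the means
  have hlow' : ∀ y ∈ s, ∀ h : (fam {y} K).Nonempty,
      c * (2 * n + |((B y : ℤ) : ℝ)|) - 1 ≤ mean P (fun e => X (shE x e)) {y} K h := by
    intro y hy h
    rw [hs, Finset.mem_filter] at hy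
    have hyR : x + y ∈ box R := by
      rw [add_comm]
      exact hboxK y hy.1
    have h1 := hlow (x + y) hyR
    have e1 : A x - A (x + y) = -(2 * n) := by
      have := hy.2
      unfold A at this ⊢
      simp only [Prod.fst_add, Prod.snd_add]
      omega
    have e2 : B x - B (x + y) = - B y := by
      unfold B
      simp only [Prod.fst_add, Prod.snd_add]
      omega
    rw [e1, e2, abs_neg, abs_neg] at h1
    have e3 : |(2 * n : ℤ)| = 2 * n := abs_of_nonneg (by positivity)
    rw [e3] at h1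
    have h2 : ∫ ω, TT (ext X ω) (box R) x (x + y) ∂P ≤ mean P (fun e => X (shE x e)) {y} K h := by
      refine integral_mono_of_nonneg (Eventually.of_forall fun ω => TT_nonneg (hexN ω) _ _ _)
        (hX'.integrable_tau hb0.le h) (Eventually.of_forall fun ω => ?_)
      obtain ⟨y', hy', p, _, hpk, hpt⟩ := exists_tau h (fun e => X (shE x e) ω)
      rw [Set.mem_singleton_iff] at hy'
      subst hy'
      show TT (ext X ω) (box R) x (x + y') ≤ tau {y'} K h (fun e => X (shE x e) ω)
      rw [← hpt]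
      exact (hTT ω p hpk).1
    push_cast at h1
    linarith
  have key := integral_le_add_bad (P := P)
    (f := fun ω => TT (ext X ω) (box R) x (x + pt n 0))
    (g := fun ω => (1 + b / c) * tau (line n) K hne (fun e => X (shE x e) ω) +
      b / c * (-(2 * c * n) + 1 + t))
    (fun ω => TT_nonneg (hexN ω) _ _ _)
    (((hX'.integrable_tau hb0.le hne).const_mul _).add (integrable_const _))
    (M := 4 * b * n) (by positivity) (Bad := {ω | ∃ z ∈ s, ω ∈ E z})
    (by
      intro ω hω
      obtain ⟨y, hy, p, hp, hpk, hpt⟩ := exists_tau hne (fun e => X (shE x e) ω)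
      have hyA : A y = 2 * n := hy
      have hys : y ∈ s := by
        rw [hs, Finset.mem_filter]
        exact ⟨mem_box_of_length hpk y p.end_mem_support, hyA⟩
      have hney : (fam {y} K).Nonempty := fam_nonempty (Set.mem_singleton y) p hpk
      have h1 : ω ∉ E y := fun h => hω ⟨y, hys, h⟩
      have h2 : |tau {y} K hney (fun e => X (shE x e) ω) -
          mean P (fun e => X (shE x e)) {y} K hney| < t := by
        by_contra hcon
        exact h1 ⟨hney, not_lt.1 hcon⟩
      have h3 := (abs_lt.1 h2).1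
      have h4 := UpperMean.tau_le hney (w := fun e => X (shE x e) ω) (fun e => hX'.nonneg e ω) (Set.mem_singleton y) p hpk
      have h5 := hlow' y hys hney
      rw [hpt] at h4
      -- walk from `x + y` to the target
      obtain ⟨hq1, q, hqin, hqwt⟩ := hTT ω p hpk
      rw [hpt] at hqwt
      obtain ⟨r, hr, hrs⟩ := l1_walk (x + y) (x + pt n 0)
      have hyR : x + y ∈ box R := by
        rw [add_comm]
        exact hboxK y (Finset.mem_filter.1 hys).1
      have hzR : x + pt n 0 ∈ box R := by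
        rw [add_comm]
        apply hboxK
        rw [mem_box]
        unfold pt
        simp only
        omega
      have hrin : IsIn (box R) r := by
        intro v hv
        have h6 := hrs v hv
        rw [Finset.mem_coe, mem_box]
        rw [mem_box] at hyR hzR
        omega
      have hrl : (r.length : ℤ) = |B y| := by
        rw [hr]
        unfold pt B
        unfold A at hyA
        simp only [Prod.fst_add, Prod.snd_add]
        push_cast
        have e1 : x.1 + y.1 - (x.1 + ((n : ℤ) + 0)) = y.1 - n := by ring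
        have e2 : x.2 + y.2 - (x.2 + ((n : ℤ) - 0)) = -(y.1 - n) := by linarith
        have e3 : y.1 - y.2 = 2 * (y.1 - n) := by linarith
        rw [e1, e2, e3, abs_neg, abs_mul]
        norm_num
        ring
      have hrl' : (r.length : ℝ) = |((B y : ℤ) : ℝ)| := by
        rw [← Int.cast_abs, ← hrl]
        push_cast
        rfl
      have h6 := TT_le (hexN ω) (isIn_append hqin hrin)
      rw [wt_append, hqwt] at h6
      have h7 := wt_le_length (w := ext X ω) (ex_le hb0.le fun e => hX.le e ω) r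
      rw [hrl'] at h7
      have h8 : c * |((B y : ℤ) : ℝ)| ≤
          tau (line n) K hne (fun e => X (shE x e) ω) + (-(2 * c * n) + 1 + t) := by linarith
      have h9 : b * |((B y : ℤ) : ℝ)| ≤ b / c *
          (tau (line n) K hne (fun e => X (shE x e) ω) + (-(2 * c * n) + 1 + t)) := by
        have := mul_le_mul_of_nonneg_left h8 (show 0 ≤ b / c by positivity)
        have e : b / c * (c * |((B y : ℤ) : ℝ)|) = b * |((B y : ℤ) : ℝ)| := by field_simp
        linarith
      have h10 : (1 + b / c) * tau (line n) K hne (fun e => X (shE x e) ω) +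
          b / c * (-(2 * c * n) + 1 + t) = tau (line n) K hne (fun e => X (shE x e) ω) +
          b / c * (tau (line n) K hne (fun e => X (shE x e) ω) + (-(2 * c * n) + 1 + t)) := by ring
      show TT (ext X ω) (box R) x (x + pt n 0) ≤
        (1 + b / c) * tau (line n) K hne (fun e => X (shE x e) ω) +
          b / c * (-(2 * c * n) + 1 + t)
      rw [h10]
      linarith)
    (by
      intro ω
      have h1 := htriv ω
      have h2 := hX'.tau_nonneg hne ω
      have h3 : 0 ≤ (1 + b / c) * tau (line n) K hne (fun e => X (shE x e) ω) := by positivity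
      have h4 : b / c * (-(2 * c * n) + 1 + t) = -(2 * b * n) + b / c * (1 + t) := by
        field_simp
        ring
      have h5 : 0 ≤ b / c * (1 + t) := by positivity
      rw [h4]
      linarith)
  rw [integral_add ((hX'.integrable_tau hb0.le hne).const_mul _) (integrable_const _),
    integral_const_mul, integral_const, probReal_univ, one_smul] at key
  have hm1 : ∫ ω, tau (line n) K hne (fun e => X (shE x e) ω) ∂P = al P X κ hκ n :=
    hX.mean_shift x hne
  rw [hm1] at key
  have h7 : 4 * b * n * P.real {ω | ∃ z ∈ s, ω ∈ E z} ≤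
      4 * b * n * ((2 * K + 1) * (4 * Real.exp (-(t / (2 * b * Real.sqrt (K + 1)))))) :=
    mul_le_mul_of_nonneg_left hBad' (by positivity)
  have e : (1 + b / c) * al P X κ hκ n + b / c * (-(2 * c * n) + 1 + t) =
      al P X κ hκ n + b / c * (al P X κ hκ n - 2 * c * n + 1 + t) := by ring
  rw [e] at key
  exact key.trans (by linarith)

end

end UpperMean
end Pool.Agent.Helper33_FPP
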